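import Pool.Agent.Helper32_NJ.Stmts

/-!
# Squad NJ, module ST4
-/

set_option autoImplicit false

namespace Pool.Agent.NJ.H59

open Pool.Agent.NJ

theorem st4 : ST4Stmt := by
  intro e₂ e₃ d₁ d₂ r s w A B hPt p hp f₂ g₁ _ he₂ hf₂ _ hd₁ hd₂
  have hpp : Prime (p : ℤ) := Nat.prime_iff_prime_int.1 hp.out
  have hr : (p : ℤ) ∣ r := by
    rw [hPt.h1, hd₁, mul_assoc]
    exact dvd_mul_right _ _
  have hs : ¬ (p : ℤ) ∣ s := by
    intro h
    have h1 := hPt.cop.isUnit_of_dvd' hr h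
    exact hpp.not_isUnit h1
  have hB : (p : ℤ) ∣ B := by
    have h1 : (p : ℤ) ∣ d₂ * B ^ 2 := by
      rw [← hPt.h2, he₂]
      exact dvd_sub hr (by rw [mul_assoc]; exact dvd_mul_right _ _)
    exact hpp.dvd_of_dvd_pow ((hpp.dvd_or_dvd h1).resolve_left hd₂)
  obtain ⟨b, rfl⟩ := hB
  have hp0 : (p : ℤ) ≠ 0 := hpp.ne_zero
  have key : g₁ * A ^ 2 - f₂ * s ^ 2 = p * (d₂ * b ^ 2) := by
    have h1 := hPt.h2
    rw [hPt.h1, hd₁, he₂] at h1
    have h2 : (p : ℤ) * (g₁ * A ^ 2 - f₂ * s ^ 2) = p * (p * (d₂ * b ^ 2)) := by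
      linear_combination h1
    exact mul_left_cancel₀ hp0 h2
  have hz : ((g₁ * A ^ 2 : ℤ) : ZMod p) = ((f₂ * s ^ 2 : ℤ) : ZMod p) := by
    rw [← sub_eq_zero, ← Int.cast_sub, key]
    push_cast
    rw [ZMod.natCast_self, zero_mul]
  have hs' : ((s : ℤ) : ZMod p) ≠ 0 := fun h => hs ((ZMod.intCast_zmod_eq_zero_iff_dvd _ _).1 h)
  have hf' : ((f₂ : ℤ) : ZMod p) ≠ 0 := fun h => hf₂ ((ZMod.intCast_zmod_eq_zero_iff_dvd _ _).1 h)
  have hA' : ((A : ℤ) : ZMod p) ≠ 0 := by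
    intro h
    push_cast at hz
    rw [h] at hz
    have h1 : ((f₂ : ℤ) : ZMod p) * ((s : ℤ) : ZMod p) ^ 2 = 0 := by
      rw [← hz]
      ring
    rcases mul_eq_zero.1 h1 with h2 | h2
    · exact hf' h2
    · exact hs' (pow_eq_zero_iff (by norm_num) |>.1 h2)
  have e1 : legendreSym p (g₁ * A ^ 2) = legendreSym p (f₂ * s ^ 2) := by
    unfold legendreSym
    rw [hz]
  rw [legendreSym.mul, legendreSym.mul, legendreSym.sq_one' p hA', legendreSym.sq_one' p hs',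
    mul_one, mul_one] at e1
  exact e1

end Pool.Agent.NJ.H59
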